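import Mathlib
import Pool.Agent.TH507.Bound

set_option autoImplicit false

/-!
Few disjoint cycles do not give a linear bound on `f(H)`: for every `s` and all large `n` there is
a planar graph `H` on `n` vertices with at most `s` pairwise disjoint cycles and
`f(H) > ε n log s`. In particular the condition `ν(H) ≤ d n / log n` does not imply `f(H) ≤ c n`.

The graph `H` is the disjoint union of `s` copies of `K_{2,m}` and isolated vertices. The host graph
is a random graph on about `s m log s` vertices with linearly many edges. Its treewidth is linear in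
its number of vertices. Among `s` disjoint models of `K_{2,m}` one has at most a `1/s` fraction of
the vertices, but no set of so few vertices contains so many more edges than vertices.
-/

namespace Pool.Agent.Results.MP_711e27_co.DisjointCycles

open Pool.Agent.TH507.Host Filter

lemma log_119 : Real.log 119 ≤ 5 := by
  rw [Real.log_le_iff_le_exp (by norm_num)]
  have h1 : (2.7 : ℝ) ≤ Real.exp 1 := by
    have := Real.exp_one_gt_d9
    linarith
  calc (119 : ℝ) ≤ 2.7 ^ 5 := by norm_num
    _ ≤ Real.exp 1 ^ 5 := pow_le_pow_left₀ (by norm_num) h1 5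
    _ = Real.exp 5 := by rw [← Real.exp_nat_mul]; norm_num

/-- the quantitative form -/
theorem strong : ∃ ε : ℝ, 0 < ε ∧ ∀ s : ℕ, 1 ≤ s → ∃ n₀ : ℕ, ∀ n : ℕ, n₀ ≤ n →
    ∃ H : SimpleGraph (Fin n), Planar H ∧ nu H ≤ s ∧
      ∃ (N : ℕ) (G : SimpleGraph (Fin N)), ¬ IsMinor H G ∧
        ε * n * Real.log s < tw G := by
  refine ⟨1 / 1000, by norm_num, ?_⟩
  intro s hs
  have hs0 : (0 : ℝ) < s := by exact_mod_cast hs
  have key : ∀ k : ℕ, s < (119 ^ 8) ^ k → Real.log s ≤ 40 * k := by
    intro k hk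
    have h1 : (s : ℝ) ≤ ((119 : ℝ) ^ 8) ^ k := by exact_mod_cast hk.le
    have h2 := Real.log_le_log hs0 h1
    rw [Real.log_pow, Real.log_pow] at h2
    have h3 := log_119
    have h4 : (0 : ℝ) ≤ k := Nat.cast_nonneg k
    push_cast at h2
    nlinarith
  by_cases hsmall : s < (119 ^ 8) ^ 2
  · refine ⟨10, fun n hn => ?_⟩
    obtain ⟨H, h1, h2, N, G, h3, h4⟩ := exceeds_trivial n (by omega)
    refine ⟨H, h1, h2.trans (Nat.zero_le _), N, G, h3, ?_⟩
    have h5 := key 2 hsmall
    have h6 : (n : ℝ) < 4 * (tw G + 1) + 1 := by exact_mod_cast h4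
    have h7 : (10 : ℝ) ≤ n := by exact_mod_cast hn
    push_cast at h5
    have h8 : (n : ℝ) * Real.log s ≤ n * 80 := by
      apply mul_le_mul_of_nonneg_left _ (by linarith)
      linarith
    nlinarith
  · push Not at hsmall
    set q := s / 20944 with hq
    have hq1 : 119 ^ 8 ≤ q := by
      rw [hq, Nat.le_div_iff_mul_le (by norm_num)]
      refine le_trans ?_ hsmall
      norm_num
    set c := Nat.log (119 ^ 8) q with hc
    have hq0 : q ≠ 0 := by
      intro h
      rw [h] at hq1
      norm_num at hq1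
    have hc1 : 1 ≤ c := by
      rw [hc]
      exact Nat.log_pos (by norm_num) hq1
    have h1 : (119 ^ 8) ^ c ≤ q := Nat.pow_log_le_self _ hq0
    have h2 : q < (119 ^ 8) ^ (c + 1) := Nat.lt_pow_succ_log_self (by norm_num) q
    have h3 : 176 * 119 ^ (8 * c + 1) ≤ s := by
      have e1 : q * 20944 ≤ s := Nat.div_mul_le_self _ _
      calc 176 * 119 ^ (8 * c + 1) = (119 ^ 8) ^ c * 20944 := by
            rw [pow_succ, pow_mul]; ring
        _ ≤ q * 20944 := Nat.mul_le_mul_right _ h1
        _ ≤ s := e1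
    have h4 : s < (119 ^ 8) ^ (c + 2) := by
      have e1 : s < (q + 1) * 20944 := by
        have := Nat.lt_div_mul_add (a := s) (b := 20944) (by norm_num)
        rw [← hq] at this
        omega
      calc s < (q + 1) * 20944 := e1
        _ ≤ (119 ^ 8) ^ (c + 1) * 119 ^ 8 := Nat.mul_le_mul h2 (by norm_num)
        _ = (119 ^ 8) ^ (c + 2) := by rw [← pow_succ]
    refine ⟨s * (8 * c + 14) + 1, fun n hn => ?_⟩
    obtain ⟨H, e1, e2, N, G, e3, e4⟩ := exceeds h3 n (by omega)
    refine ⟨H, e1, e2, N, G, e3, ?_⟩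
    have h5 := key (c + 2) h4
    have h6 : (c : ℝ) * n < tw G := by exact_mod_cast e4
    have h7 : (1 : ℝ) ≤ c := by exact_mod_cast hc1
    have h8 : (0 : ℝ) < n := by
      have : 0 < n := by omega
      exact_mod_cast this
    push_cast at h5
    have h9 : (n : ℝ) * Real.log s ≤ n * (120 * c) := by
      apply mul_le_mul_of_nonneg_left _ h8.le
      linarith
    nlinarith

/-- **Q1 is false, for every `d`.** First, there is `ε > 0` such that for every `s ≥ 1` and all
large `n` some planar graph `H` on `n` vertices has at most `s` pairwise disjoint cycles, although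
some graph without a minor `H` has treewidth larger than `ε n log s`. Secondly, for no `d > 0` is
there a constant `c` such that `f(H) ≤ c n` for all planar graphs `H` on `n ≥ 2` vertices with
`ν(H) ≤ d n / log n`. -/
theorem result :
    (∃ ε : ℝ, 0 < ε ∧ ∀ s : ℕ, 1 ≤ s → ∃ n₀ : ℕ, ∀ n : ℕ, n₀ ≤ n →
      ∃ H : SimpleGraph (Fin n), Planar H ∧ nu H ≤ s ∧
        ∃ (N : ℕ) (G : SimpleGraph (Fin N)), ¬ IsMinor H G ∧
          ε * n * Real.log s < tw G) ∧
    ∀ d : ℝ, 0 < d → ¬ ∃ c : ℝ, 0 < c ∧ ∀ n : ℕ, 2 ≤ n → ∀ H : SimpleGraph (Fin n), Planar H →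
      (nu H : ℝ) ≤ d * n / Real.log n →
        ∀ (N : ℕ) (G : SimpleGraph (Fin N)), ¬ IsMinor H G → (tw G : ℝ) ≤ c * n := by
  refine ⟨strong, ?_⟩
  rintro d hd ⟨c, hc, hcon⟩
  obtain ⟨ε, hε, hstrong⟩ := strong
  obtain ⟨s, hs⟩ := exists_nat_gt (Real.exp (c / ε))
  have hs0 : (0 : ℝ) < s := (Real.exp_pos _).trans hs
  have hs1 : 1 ≤ s := by
    have : 0 < s := by exact_mod_cast hs0
    omega
  have hlog : c / ε < Real.log s := by
    rw [Real.lt_log_iff_exp_lt hs0]
    exact hs
  have hlog' : c < ε * Real.log s := by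
    rw [div_lt_iff₀ hε] at hlog
    linarith
  obtain ⟨n₀, hn₀⟩ := hstrong s hs1
  have hlim : ∀ᶠ n : ℕ in atTop, (s : ℝ) * Real.log n ≤ d * n := by
    have h1 : (fun x : ℝ => Real.log x) =o[atTop] (fun x : ℝ => x) := Real.isLittleO_log_id_atTop
    have h2 := h1.bound (show (0 : ℝ) < d / s by positivity)
    have h3 := tendsto_natCast_atTop_atTop (R := ℝ) |>.eventually h2
    filter_upwards [h3, eventually_ge_atTop 1] with n hn hn1
    have hn1' : (1 : ℝ) ≤ n := by exact_mod_cast hn1
    rw [Real.norm_of_nonneg (Real.log_nonneg hn1'), Real.norm_of_nonneg (by linarith)] at hn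
    rw [div_mul_eq_mul_div, le_div_iff₀ hs0] at hn
    linarith
  obtain ⟨n, hn1, hn2, hn3⟩ :=
    (hlim.and ((eventually_ge_atTop 2).and (eventually_ge_atTop n₀))).exists
  obtain ⟨H, h1, h2, N, G, h3, h4⟩ := hn₀ n hn3
  have hn2' : (2 : ℝ) ≤ n := by exact_mod_cast hn2
  have hlogn : 0 < Real.log n := Real.log_pos (by linarith)
  have h5 := hcon n hn2 H h1 (by
    rw [le_div_iff₀ hlogn]
    refine le_trans ?_ hn1
    apply mul_le_mul_of_nonneg_right _ hlogn.le
    exact_mod_cast h2) N G h3
  nlinarith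

end Pool.Agent.Results.MP_711e27_co.DisjointCycles
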